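import Pool.Agent.K6.H83.LG.Low
import Pool.Agent.N430.AD.Final

set_option autoImplicit false
set_option linter.unusedSectionVars false

/-! The mean of the number of primes in the set of Lenstra. -/

namespace Pool.Agent.K6.H83.LG

open NumberField Filter Topology Finset
open Pool.Agent.W401.Cheb (M M_congr)
open Pool.Agent.W171.LG (QA QR PW GF UnW Un rd rd_ne un_iff unW_iff exists_unW cE Lf dens M_eq
  aR gd Tp gT lim_lenR closeR tW Gen DR PW_sup)
open Pool.Agent.H386R2.Artin (hL sumH LC_pos)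
open Pool.Agent.H981R3.LN (ql Sk mem_Sk Sk_dvd Sk_prime ql_ge)
open Pool.Agent.TH893.JO (LL PD dens_QR zpow_iff)
open Pool.Agent.K6.H83.GL (rho rho_nonneg rho_le_one mV mE)
open Pool.Agent.N430.CLT (PP mem_PP avgP)

section
variable (F : IntermediateField ℚ QA) [NumberField F] [IsGalois ℚ F] (C : Set Gal(F/ℚ))
  (W0 : Subgroup ℚˣ) (k : ℕ) (D : ℚˣ) (r : ℕ)

open Classical in
lemma dens_gT {p : ℕ} [hp : Fact p.Prime] (h1 : UnW W0 p) (h2 : Un p (D : ℚ)) (hr : r ≠ 0)
    (hrk : ∀ l : ℕ, l.Prime → l ∣ r → ql k l ∣ r) :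
    Pool.Agent.TH890.AS.dens p (QR F C W0 k D r p) =
      if gd F C (W0 ⊔ Subgroup.zpowers D) k r.primeFactors p then
        gT k (Tp W0 k r.primeFactors p) else 0 := by
  have hp1 : p - 1 ≠ 0 := (LC_pos (p := p)).ne'
  rw [dens_QR]
  by_cases hGF : GF F C p
  swap
  · rw [if_neg (fun h => hGF h.1), if_neg (fun h => hGF h.1)]
  rw [if_pos ⟨hGF, h1, h2⟩]
  have hLL : ∀ l, l ∈ LL W0 k p ↔ l ∈ Sk k (p - 1) ∧ PW W0 (ql k l) p := by
    intro l
    unfold LL
    rw [mem_filter]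
  have hTp : ∀ l, l ∈ Tp W0 k r.primeFactors p ↔
      l ∈ Sk k (p - 1) ∧ l ∉ r.primeFactors ∧ PW W0 (ql k l) p := by
    intro l
    unfold Tp
    rw [mem_filter]
  have hgcd : ∀ l, l.Prime → l ∣ r → Nat.gcd r (ql k l) = ql k l := by
    intro l hl hlr
    exact Nat.gcd_eq_right (hrk l hl hlr)
  by_cases hR : ∀ l ∈ r.primeFactors, ¬ PW (W0 ⊔ Subgroup.zpowers D) (ql k l) p
  · rw [if_pos ⟨hGF, hR⟩]
    unfold gT
    symm
    have hsub : Tp W0 k r.primeFactors p ⊆ LL W0 k p := by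
      intro l hl
      rw [hTp] at hl
      exact (hLL l).2 ⟨hl.1, hl.2.2⟩
    rw [← Finset.prod_subset hsub]
    · refine Finset.prod_congr rfl fun l hl => ?_
      rw [hTp] at hl
      have hlp := Sk_prime hl.1
      rw [PD_eq hlp (fun h => hl.2.1 (Nat.mem_primeFactors.2 ⟨hlp, h, hr⟩))]
    · intro l hl hl2
      rw [hLL] at hl
      rw [hTp] at hl2
      have hlp := Sk_prime hl.1
      have hlR : l ∈ r.primeFactors := by
        by_contra hc
        exact hl2 ⟨hl.1, hc, hl.2⟩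
      have h3 := hR l hlR
      rw [PW_sup h1 h2] at h3
      have h4 : ¬ ∃ y : ZMod p, y ^ Nat.gcd r (ql k l) = rd p (D : ℚ) := by
        rw [hgcd l hlp (Nat.dvd_of_mem_primeFactors hlR), ← zpow_iff (rd_ne h2) (Sk_dvd hl.1)]
        exact fun h => h3 ⟨hl.2, h⟩
      unfold PD
      rw [if_neg h4, sub_zero]
  · rw [if_neg (fun h => hR h.2)]
    push Not at hR
    obtain ⟨l, hlR, h3⟩ := hR
    rw [PW_sup h1 h2] at h3
    have hlp := Nat.prime_of_mem_primeFactors hlR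
    have hlS : l ∈ Sk k (p - 1) := (mem_Sk hp1).2 ⟨hlp, h3.1.1⟩
    apply Finset.prod_eq_zero ((hLL l).2 ⟨hlS, h3.1⟩)
    have h4 : ∃ y : ZMod p, y ^ Nat.gcd r (ql k l) = rd p (D : ℚ) := by
      rw [hgcd l hlp (Nat.dvd_of_mem_primeFactors hlR), ← zpow_iff (rd_ne h2) (Sk_dvd hlS)]
      exact h3.2
    unfold PD
    rw [if_pos h4, hgcd l hlp (Nat.dvd_of_mem_primeFactors hlR), div_self, sub_self]
    exact_mod_cast (ql_pos' hlp).ne'

/-- **the mean** -/
theorem mean_lim (hC : ∀ σ ∈ C, ∀ τ : Gal(F/ℚ), τ * σ * τ⁻¹ ∈ C) (hW0 : W0.FG) (hr : r ≠ 0)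
    (hrk : ∀ l : ℕ, l.Prime → l ∣ r → ql k l ∣ r) (A : Set ℕ)
    (hA : ∀ p : ℕ, p.Prime → padicValRat p (D : ℚ) = 0 → p ∈ A) :
    Tendsto (fun x : ℕ => mE A (QR F C W0 k D r) x / (Nat.primeCounting x : ℝ)) atTop
      (𝓝 (∑' e : ℕ, aR F C (W0 ⊔ Subgroup.zpowers D) W0 k r.primeFactors e)) := by
  classical
  have hW1 : (W0 ⊔ Subgroup.zpowers D).FG := hW0.sup ⟨{D}, by simp [Subgroup.zpowers_eq_closure]⟩
  have hRp : ∀ l ∈ r.primeFactors, l.Prime := fun l hl => Nat.prime_of_mem_primeFactors hl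
  have hlim := lim_lenR F C k r.primeFactors hC hW1 hW0 hRp
  obtain ⟨D0, hD0, hU0⟩ := exists_unW (W := W0 ⊔ Subgroup.zpowers D) hW1
  -- the exact local densities
  have h1 : Tendsto (M fun p => if p ∈ A then Pool.Agent.TH890.AS.dens p (QR F C W0 k D r p) else 0)
      atTop (𝓝 (∑' e : ℕ, aR F C (W0 ⊔ Subgroup.zpowers D) W0 k r.primeFactors e)) := by
    refine M_congr hD0 (fun p hp hpD => ?_) hlim
    have : Fact p.Prime := ⟨hp⟩
    have hUW := hU0 p hpD
    have hU1 : UnW W0 p := fun w hw => hUW w (Subgroup.mem_sup_left hw)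
    have hUD : Un p (D : ℚ) := hUW D (Subgroup.mem_sup_right (Subgroup.mem_zpowers D))
    rw [if_pos (hA p hp ((un_iff D.ne_zero).1 hUD)), dens_gT F C W0 k D r hU1 hUD hr hrk]
  -- the factors `1 - 1 / p`
  have h2 : Tendsto (fun x : ℕ => (1 + Real.log x) / (Nat.primeCounting x : ℝ)) atTop (𝓝 0) := by
    have e1 : Tendsto (fun x : ℕ => 1 / (Nat.primeCounting x : ℝ)) atTop (𝓝 0) :=
      tendsto_const_nhds.div_atTop pc_top
    have e2 := e1.add Pool.Agent.N430.AD.log_small2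
    rw [add_zero] at e2
    refine e2.congr fun x => ?_
    rw [add_div]
  have h3 : Tendsto (fun x : ℕ => mE A (QR F C W0 k D r) x / (Nat.primeCounting x : ℝ) -
      M (fun p => if p ∈ A then Pool.Agent.TH890.AS.dens p (QR F C W0 k D r p) else 0) x) atTop
      (𝓝 0) := by
    refine squeeze_zero_norm (fun x => ?_) h2
    rw [M_eq, ← sub_div, Real.norm_eq_abs, abs_div, Nat.abs_cast]
    refine div_le_div_of_nonneg_right ?_ (Nat.cast_nonneg _)
    unfold mE
    rw [Finset.sum_filter]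
    change |∑ p ∈ PP x, (if p ∈ A then rho p (QR F C W0 k D r p) else 0) -
      ∑ p ∈ PP x, (if p ∈ A then Pool.Agent.TH890.AS.dens p (QR F C W0 k D r p) else 0)| ≤ _
    rw [← Finset.sum_sub_distrib]
    refine (Finset.abs_sum_le_sum_abs _ _).trans ?_
    have hharm : ∑ p ∈ PP x, 1 / (p : ℝ) ≤ 1 + Real.log x := by
      have h5 := harmonic_le_one_add_log x
      refine le_trans ?_ h5
      rw [harmonic_eq_sum_Icc]
      push_cast
      simp only [one_div]
      refine Finset.sum_le_sum_of_subset_of_nonneg ?_ fun _ _ _ => by positivity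
      intro p hp
      rw [mem_PP] at hp
      rw [Finset.mem_Icc]
      exact ⟨hp.2.one_le, hp.1⟩
    refine le_trans (Finset.sum_le_sum fun p hp => ?_) hharm
    have hpp := (mem_PP.1 hp).2
    have : Fact p.Prime := ⟨hpp⟩
    by_cases hpA : p ∈ A
    · rw [if_pos hpA, if_pos hpA, rho_eq]
      have hd0 := Pool.Agent.TH890.AS.dens_nonneg p (QR F C W0 k D r p)
      have hd1 := Pool.Agent.TH890.AS.dens_le_one (QR F C W0 k D r p) (fun h => h.2.2.2.1 rfl)
      have hp0 : (0 : ℝ) ≤ 1 / (p : ℝ) := by positivity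
      rw [show (1 - 1 / (p : ℝ)) * Pool.Agent.TH890.AS.dens p (QR F C W0 k D r p) -
        Pool.Agent.TH890.AS.dens p (QR F C W0 k D r p) =
        -(1 / (p : ℝ) * Pool.Agent.TH890.AS.dens p (QR F C W0 k D r p)) by ring, abs_neg,
        abs_of_nonneg (mul_nonneg hp0 hd0)]
      exact mul_le_of_le_one_right hp0 hd1
    · rw [if_neg hpA, if_neg hpA, sub_self, abs_zero]
      positivity
  have h4 := h3.add h1
  rw [zero_add] at h4
  refine h4.congr fun x => ?_
  ring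

end

end Pool.Agent.K6.H83.LG
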