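import Pool.Agent.W171.LG.CoreR

set_option autoImplicit false
set_option linter.unusedSectionVars false

/-! A number field meets the field of the `l`-th roots of finitely many rational numbers in `ℚ`,
for all but finitely many primes `l`. -/

namespace Pool.Agent.K6.H83.LG

open NumberField IntermediateField
open Pool.Agent.W401.Cheb
open Pool.Agent.W171.LG

lemma nf_of_le {A B : IntermediateField ℚ QA} (h : A ≤ B) [NumberField B] : NumberField A := by
  have : FiniteDimensional ℚ B := NumberField.to_finiteDimensional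
  exact { to_charZero := inferInstance
          to_finiteDimensional := FiniteDimensional.of_injective
            (inclusion h).toLinearMap (inclusion_injective h) }

lemma discr_dvd_of_le {A B : IntermediateField ℚ QA} (h : A ≤ B) [NumberField A] [NumberField B] :
    discr A ∣ discr B := by
  let _ : Algebra A B := (inclusion h).toRingHom.toAlgebra
  exact NumberField.discr_dvd_discr A B

lemma bot_of_discr (A : IntermediateField ℚ QA) [NumberField A] (h : IsUnit (discr A)) : A = ⊥ := by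
  by_contra hne
  have : 1 < Module.finrank ℚ A := by
    refine Nat.one_lt_iff_ne_zero_and_ne_one.mpr ⟨Module.finrank_pos.ne', ?_⟩
    intro h1
    exact hne (IntermediateField.finrank_eq_one_iff.1 h1)
  have h2 := abs_discr_gt_two this
  have h3 := Int.isUnit_iff_abs_eq.1 h
  omega

/-- the `l`-th cyclotomic field -/
lemma cyc_field {l : ℕ} (hl : l.Prime) {ζ : QA} (hζ : IsPrimitiveRoot ζ l) :
    Module.finrank ℚ (adjoin ℚ {ζ} : IntermediateField ℚ QA) = l - 1 := by
  have hint : IsIntegral ℚ ζ := by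
    have h1 : IsIntegral ℤ ζ := hζ.isIntegral hl.pos
    exact h1.tower_top
  rw [adjoin.finrank hint, ← Polynomial.cyclotomic_eq_minpoly_rat hζ hl.pos,
    Polynomial.natDegree_cyclotomic, Nat.totient_prime hl]

lemma cyc_inf (F : IntermediateField ℚ QA) [NumberField F] {l : ℕ} (hl : l.Prime)
    (hd : ¬ (l : ℤ) ∣ discr F) {ζ : QA} (hζ : IsPrimitiveRoot ζ l) :
    F ⊓ adjoin ℚ {ζ} = ⊥ := by
  have hlF : Fact l.Prime := ⟨hl⟩
  have hne : NeZero l := ⟨hl.ne_zero⟩
  have hcyc : IsCyclotomicExtension {l} ℚ (adjoin ℚ {ζ} : IntermediateField ℚ QA) :=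
    (isCyclotomicExtension_singleton_iff_eq_adjoin l ℚ QA
      (adjoin ℚ {ζ} : IntermediateField ℚ QA) hζ).2 rfl
  have hnf : NumberField (adjoin ℚ {ζ} : IntermediateField ℚ QA) :=
    IsCyclotomicExtension.numberField {l} ℚ _
  have hnf2 : NumberField (F ⊓ adjoin ℚ {ζ} : IntermediateField ℚ QA) := nf_of_le inf_le_left
  have h1 : discr (F ⊓ adjoin ℚ {ζ} : IntermediateField ℚ QA) ∣ discr F := discr_dvd_of_le inf_le_left
  have h2 : discr (F ⊓ adjoin ℚ {ζ} : IntermediateField ℚ QA) ∣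
      discr (adjoin ℚ {ζ} : IntermediateField ℚ QA) := discr_dvd_of_le inf_le_right
  apply bot_of_discr
  have h3 := IsCyclotomicExtension.Rat.discr_prime l (adjoin ℚ {ζ} : IntermediateField ℚ QA)
  have hcop : IsCoprime (discr F) (discr (adjoin ℚ {ζ} : IntermediateField ℚ QA)) := by
    have h4 : IsCoprime (discr F) ((l : ℤ) ^ (l - 2)) := by
      apply IsCoprime.pow_right
      rw [isCoprime_comm]
      exact (Prime.coprime_iff_not_dvd (Nat.prime_iff_prime_int.1 hl)).2 hd
    have h5 : IsCoprime (discr F) ((-1 : ℤ) ^ ((l - 1) / 2)) := by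
      apply IsCoprime.pow_right
      exact ⟨0, -1, by norm_num⟩
    have h6 := h5.mul_right h4
    convert h6 using 1
  exact hcop.isUnit_of_dvd' h1 h2

/-- degrees of radical extensions -/
lemma rad_deg (K0 : IntermediateField ℚ QA) {l : ℕ} (hl : l.Prime) {ζ : QA}
    (hζ : IsPrimitiveRoot ζ l) (hζK : ζ ∈ K0) {u : ℚˣ} {α : QA} (hα : α ^ l = algebraMap ℚ QA (u : ℚ)) :
    Module.finrank ℚ (K0 ⊔ adjoin ℚ {α} : IntermediateField ℚ QA) = Module.finrank ℚ K0 * l ∨
    Module.finrank ℚ (K0 ⊔ adjoin ℚ {α} : IntermediateField ℚ QA) = Module.finrank ℚ K0 := by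
  by_cases H : ∀ b : K0, b ^ l ≠ algebraMap ℚ K0 (u : ℚ)
  · left
    have hζ' : IsPrimitiveRoot (⟨ζ, hζK⟩ : K0) l := by
      refine IsPrimitiveRoot.of_map_of_injective (f := K0.val) ?_ K0.val.injective
      exact hζ
    refine finrank_radical K0 hl.pos hζ' u.ne_zero hα (fun r hr hrq b hb => ?_)
    rw [(Nat.prime_dvd_prime_iff_eq hr hl).1 hrq] at hb
    exact H b hb
  · right
    push Not at H
    obtain ⟨b, hb⟩ := H
    have hb' : (b : QA) ^ l = algebraMap ℚ QA (u : ℚ) := by
      have := congrArg (fun z : K0 => (z : QA)) hb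
      exact this
    have hb0 : (b : QA) ≠ 0 := by
      intro h0
      rw [h0, zero_pow hl.ne_zero] at hb'
      exact u.ne_zero ((map_eq_zero _).1 hb'.symm)
    have h1 : (α / b) ^ l = 1 := by
      rw [div_pow, hα, hb', div_self]
      rw [← hb']
      exact pow_ne_zero _ hb0
    have : NeZero l := ⟨hl.ne_zero⟩
    obtain ⟨i, _, hi⟩ := hζ.eq_pow_of_pow_eq_one h1
    have hαK : α ∈ K0 := by
      have h2 : α = ζ ^ i * b := by
        rw [hi]
        field_simp
      rw [h2]
      exact K0.mul_mem (pow_mem hζK i) b.2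
    have h3 : K0 ⊔ adjoin ℚ {α} = K0 := by
      rw [sup_eq_left, adjoin_le_iff, Set.singleton_subset_iff]
      exact hαK
    rw [h3]

lemma lf_bot {l : ℕ} (hl : l.Prime) {ζ : QA} (hζ : IsPrimitiveRoot ζ l) :
    Lf QA (⊥ : Subgroup ℚˣ) l = adjoin ℚ {ζ} := by
  have : NeZero l := ⟨hl.ne_zero⟩
  apply le_antisymm
  · unfold Lf
    rw [adjoin_le_iff]
    rintro z ⟨w, hw, hz⟩
    rw [Subgroup.mem_bot] at hw
    rw [hw, Units.val_one, map_one] at hz
    obtain ⟨i, _, hi⟩ := hζ.eq_pow_of_pow_eq_one hz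
    rw [← hi]
    exact pow_mem (mem_adjoin_simple_self ℚ ζ) i
  · rw [adjoin_le_iff, Set.singleton_subset_iff]
    exact root_one_mem ⊥ hζ.pow_eq_one

lemma lf_deg {l : ℕ} (hl : l.Prime) (S : Finset ℚˣ) :
    ∃ a : ℕ, Module.finrank ℚ (Lf QA (Subgroup.closure (S : Set ℚˣ)) l) = (l - 1) * l ^ a := by
  classical
  have : NeZero l := ⟨hl.ne_zero⟩
  obtain ⟨ζ, hζ⟩ := HasEnoughRootsOfUnity.exists_primitiveRoot QA l
  induction S using Finset.induction_on with
  | empty =>
    refine ⟨0, ?_⟩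
    rw [Finset.coe_empty, Subgroup.closure_empty, lf_bot hl hζ, cyc_field hl hζ]
    simp
  | insert u S _ ih =>
    obtain ⟨a, ha⟩ := ih
    obtain ⟨α, hα⟩ := IsAlgClosed.exists_pow_nat_eq (algebraMap ℚ QA (u : ℚ)) hl.pos
    have e1 : Subgroup.closure ((insert u S : Finset ℚˣ) : Set ℚˣ) =
        Subgroup.closure (S : Set ℚˣ) ⊔ Subgroup.zpowers u := by
      rw [Finset.coe_insert, Set.insert_eq, Subgroup.closure_union, Subgroup.zpowers_eq_closure, sup_comm]
    rw [e1, Lf_sup hl.pos hα]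
    rcases rad_deg (Lf QA (Subgroup.closure (S : Set ℚˣ)) l) hl hζ
      (root_one_mem _ hζ.pow_eq_one) hα with h | h
    · refine ⟨a + 1, ?_⟩
      rw [h, ha]
      ring
    · exact ⟨a, by rw [h, ha]⟩

/-- the general fact on degrees -/
lemma inf_of_deg {k Ω : Type*} [Field k] [CharZero k] [Field Ω] [Algebra k Ω]
    (F L K0 : IntermediateField k Ω) [Normal k F] [Normal k L] [FiniteDimensional k F]
    [FiniteDimensional k L] (hK0L : K0 ≤ L) (hFK : F ⊓ K0 = ⊥) {l a d : ℕ} (hl : l.Prime)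
    (hd : 0 < d) (h1 : Module.finrank k K0 = d) (h2 : Module.finrank k L = d * l ^ a)
    (hlF : ¬ l ∣ Module.finrank k F) : F ⊓ L = ⊥ := by
  set M : IntermediateField k Ω := F ⊓ L with hM
  have hMn : Normal k M := by
    rw [hM]
    infer_instance
  have hMfin : FiniteDimensional k M := FiniteDimensional.of_injective
    (inclusion (inf_le_left : M ≤ F)).toLinearMap (inclusion_injective (inf_le_left : M ≤ F))
  have hMg : IsGalois k M := ⟨⟩
  have hK0fin : FiniteDimensional k K0 := FiniteDimensional.of_injective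
    (inclusion hK0L).toLinearMap (inclusion_injective hK0L)
  have hMK : M ⊓ K0 = ⊥ := by
    rw [eq_bot_iff, ← hFK]
    exact inf_le_inf_right _ inf_le_left
  have hld : M.LinearDisjoint K0 := LinearDisjoint.iff_inf_eq_bot.2 hMK
  have h3 := hld.finrank_sup
  have h4 : Module.finrank k (M ⊔ K0 : IntermediateField k Ω) ∣ Module.finrank k L :=
    finrank_dvd_of_le_right (sup_le inf_le_right hK0L)
  rw [h3, h1, h2, mul_comm (Module.finrank k M)] at h4
  have h5 : Module.finrank k M ∣ l ^ a := Nat.dvd_of_mul_dvd_mul_left hd h4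
  have h6 : Module.finrank k M ∣ Module.finrank k F := finrank_dvd_of_le_right inf_le_left
  have h7 : Nat.Coprime (l ^ a) (Module.finrank k F) :=
    Nat.Coprime.pow_left _ ((Nat.Prime.coprime_iff_not_dvd hl).2 hlF)
  have h8 : Module.finrank k M = 1 := Nat.eq_one_of_dvd_coprimes h7 h5 h6
  exact IntermediateField.finrank_eq_one_iff.1 h8

/-- **linear disjointness** -/
theorem inf_lf (F : IntermediateField ℚ QA) [NumberField F] [IsGalois ℚ F] {W : Subgroup ℚˣ}
    (hW : W.FG) {l : ℕ} (hl : l.Prime) (hd : ¬ (l : ℤ) ∣ discr F)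
    (hlF : ¬ l ∣ Module.finrank ℚ F) : F ⊓ Lf QA W l = ⊥ := by
  have : NeZero l := ⟨hl.ne_zero⟩
  obtain ⟨ζ, hζ⟩ := HasEnoughRootsOfUnity.exists_primitiveRoot QA l
  obtain ⟨S, rfl⟩ := hW
  have hQA : Normal ℚ QA := nQA
  have hN1 := @Lf_normal ℚ QA _ _ _ hQA (Subgroup.closure (S : Set ℚˣ)) l
  have hN2 : Normal ℚ F := inferInstance
  have hfin : FiniteDimensional ℚ (Lf QA (Subgroup.closure (S : Set ℚˣ)) l) :=
    Lf_fin ⟨S, rfl⟩ hl.pos
  have hFfin : FiniteDimensional ℚ F := NumberField.to_finiteDimensional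
  obtain ⟨a, ha⟩ := lf_deg hl S
  have hl1 : 0 < l - 1 := by have := hl.two_le; omega
  have hK0L : adjoin ℚ {ζ} ≤ Lf QA (Subgroup.closure (S : Set ℚˣ)) l := by
    rw [adjoin_le_iff, Set.singleton_subset_iff]
    exact root_one_mem _ hζ.pow_eq_one
  exact @inf_of_deg ℚ QA _ _ _ _ F (Lf QA (Subgroup.closure (S : Set ℚˣ)) l) (adjoin ℚ {ζ}) hN2 hN1
    hFfin hfin hK0L (cyc_inf F hl hd hζ) l a (l - 1) hl hl1 (cyc_field hl hζ) ha hlF

/-- a prime `l` for which the two fields are linearly disjoint -/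
theorem exists_l (F : IntermediateField ℚ QA) [NumberField F] [IsGalois ℚ F] {W : Subgroup ℚˣ}
    (hW : W.FG) (m : ℕ) : ∃ l : ℕ, l.Prime ∧ m < l ∧ F ⊓ Lf QA W l = ⊥ := by
  obtain ⟨l, hl1, hl⟩ := Nat.exists_infinite_primes
    (m + (discr F).natAbs + Module.finrank ℚ F + 1)
  refine ⟨l, hl, by omega, inf_lf F hW hl ?_ ?_⟩
  · intro h
    have h1 : l ∣ (discr F).natAbs := Int.natCast_dvd.1 h
    have h2 : 0 < (discr F).natAbs := Int.natAbs_pos.2 (discr_ne_zero F)
    have := Nat.le_of_dvd h2 h1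
    omega
  · intro h
    have hFfin : FiniteDimensional ℚ F := NumberField.to_finiteDimensional
    have := Nat.le_of_dvd Module.finrank_pos h
    omega

lemma cE_pos (F : IntermediateField ℚ QA) [NumberField F] [IsGalois ℚ F] (C : Set Gal(F/ℚ))
    (hC : C.Nonempty) (E : IntermediateField ℚ QA) (h : F ⊓ E = ⊥) : 0 < cE F C E := by
  unfold cE
  have hFfin : FiniteDimensional ℚ F := NumberField.to_finiteDimensional
  have : Finite Gal(F/ℚ) := inferInstance
  obtain ⟨σ, hσ⟩ := hC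
  have : Nonempty {σ : Gal(F/ℚ) // σ ∈ C ∧ ∀ y : F, (y : QA) ∈ E → σ y = y} := by
    refine ⟨⟨σ, hσ, fun y hy => ?_⟩⟩
    have h1 : (y : QA) ∈ (F ⊓ E : IntermediateField ℚ QA) := ⟨y.2, hy⟩
    rw [h, mem_bot] at h1
    obtain ⟨c, hc⟩ := h1
    have h2 : y = algebraMap ℚ F c := by
      apply Subtype.ext
      rw [← hc]
      rfl
    rw [h2, AlgEquiv.commutes]
  exact Nat.card_pos

end Pool.Agent.K6.H83.LG
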