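import Pool.Agent.K6.H83.LG.MeanL
import Pool.Agent.K6.H83.GL.Stable

set_option autoImplicit false
set_option linter.unusedSectionVars false

/-! The joint Gaussian law for the numbers of primes in the sets of Lenstra. -/

namespace Pool.Agent.K6.H83.LG

open NumberField Filter Topology Finset ProbabilityTheory MeasureTheory
open Pool.Agent.W401.Cheb (M M_congr TorAt torsor nonempty_hom exists_frob)
open Pool.Agent.W171.LG (QA QR PW GF UnW Un rd rd_ne un_iff unW_iff exists_unW cE Lf dens M_eq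
  aR gd Tp gT lim_lenR closeR tW Gen DR PW_sup LC LC_iffR gp_eqR GF_iff fi_iff)
open Pool.Agent.H386R2.Artin (hL sumH LC_pos)
open Pool.Agent.H981R3.LN (ql Sk mem_Sk Sk_dvd Sk_prime ql_ge)
open Pool.Agent.K6.H83.GL (rho rho_nonneg rho_le_one mV mE setD setD_S sum_cv cv_zero joint_stable cv)
open Pool.Agent.N430.CLT (PP mem_PP avgP avg)

section
variable (F : IntermediateField ℚ QA) [NumberField F] [IsGalois ℚ F]

/-- the Frobenius class of a large prime is in at most one of two disjoint sets -/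
lemma gf_disj {C C' : Set Gal(F/ℚ)} (hC : ∀ σ ∈ C, ∀ τ : Gal(F/ℚ), τ * σ * τ⁻¹ ∈ C)
    (hC' : ∀ σ ∈ C', ∀ τ : Gal(F/ℚ), τ * σ * τ⁻¹ ∈ C') (hd : Disjoint C C') {p : ℕ}
    (hp : p.Prime) (hT : ∀ _ : Fact p.Prime, TorAt F p) (h1 : GF F C p) (h2 : GF F C' p) : False := by
  have : Fact p.Prime := ⟨hp⟩
  have hTF := hT this
  obtain ⟨φ⟩ := nonempty_hom hTF
  obtain ⟨τ, hτ⟩ := exists_frob hTF φ
  rw [GF_iff C hp, fi_iff hTF hC hτ] at h1
  rw [GF_iff C' hp, fi_iff hTF hC' hτ] at h2
  exact Set.disjoint_left.1 hd h1 h2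

variable (C : Set Gal(F/ℚ)) (W0 : Subgroup ℚˣ) (k : ℕ) (D : ℚˣ) (r : ℕ)

open Classical in
/-- the number of primes in the set of Lenstra for `⟨W₀, D n ^ r⟩` -/
noncomputable def SL (n x : ℕ) : ℕ :=
  #((PP x).filter (fun p => LC F C k (W0 ⊔ Subgroup.closure {w : ℚˣ | (w : ℚ) = (D : ℚ) * (n : ℚ) ^ r}) p))

/-- the mean -/
noncomputable def EL (x : ℕ) : ℝ := ∑ p ∈ PP x, rho p (QR F C W0 k D r p)

/-- the variance -/
noncomputable def VL (x : ℕ) : ℝ :=
  ∑ p ∈ PP x, rho p (QR F C W0 k D r p) * (1 - rho p (QR F C W0 k D r p))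

open Classical in
lemma rho_zero {p : ℕ} (h : ¬ GF F C p) : rho p (QR F C W0 k D r p) = 0 := by
  unfold rho avgP
  rw [Finset.sum_eq_zero, zero_div]
  intro m _
  rw [if_neg (fun hq => h hq.1)]

/-- the primes `p ≥ p₁` with Frobenius class in `C` -/
def AL (p1 : ℕ) : Set ℕ := {p | p1 ≤ p ∧ p.Prime ∧ GF F C p}

lemma sum_close (p1 : ℕ) (g : ℕ → ℝ) (hg0 : ∀ p, 0 ≤ g p) (hg1 : ∀ p, g p ≤ 1)
    (hg : ∀ p : ℕ, ¬ GF F C p → g p = 0) (x : ℕ) [DecidablePred (fun p => p ∈ AL F C p1)] :
    |∑ p ∈ PP x, g p - ∑ p ∈ (PP x).filter (fun p => p ∈ AL F C p1), g p| ≤ p1 := by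
  rw [Finset.sum_filter, ← Finset.sum_sub_distrib]
  refine (Finset.abs_sum_le_sum_abs _ _).trans ?_
  calc ∑ p ∈ PP x, |g p - if p ∈ AL F C p1 then g p else 0| ≤
      ∑ p ∈ PP x, (if p < p1 then (1 : ℝ) else 0) := by
        refine Finset.sum_le_sum fun p hp => ?_
        have hpp := (mem_PP.1 hp).2
        by_cases hA : p ∈ AL F C p1
        · rw [if_pos hA, sub_self, abs_zero]
          split_ifs <;> norm_num
        · rw [if_neg hA, sub_zero, abs_of_nonneg (hg0 p)]
          by_cases hlt : p < p1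
          · rw [if_pos hlt]
            exact hg1 p
          · rw [if_neg hlt, hg p (fun h => hA ⟨by omega, hpp, h⟩)]
    _ ≤ p1 := by
        rw [← Finset.sum_filter, Finset.sum_const, nsmul_eq_mul, mul_one]
        have : (PP x).filter (fun p => p < p1) ⊆ Finset.range p1 := by
          intro p hp
          rw [mem_filter] at hp
          rw [Finset.mem_range]
          exact hp.2
        have h10 := card_le_card this
        rw [Finset.card_range] at h10
        exact_mod_cast h10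

open Classical in
lemma SL_close {p1 : ℕ} (hp1 : ∀ p : ℕ, p.Prime → p1 ≤ p → Un p (D : ℚ)) (hk : k ≠ 0) (hr : r ≠ 0)
    {n : ℕ} (hn : n ≠ 0) (x : ℕ) :
    |(SL F C W0 k D r n x : ℝ) -
      (#((PP x).filter (fun p => p ∈ AL F C p1 ∧ QR F C W0 k D r p (n : ZMod p))) : ℝ)| ≤ p1 := by
  unfold SL
  rw [Finset.card_filter, Finset.card_filter]
  push_cast
  rw [← Finset.sum_sub_distrib]
  refine (Finset.abs_sum_le_sum_abs _ _).trans ?_
  calc ∑ p ∈ PP x, |(if LC F C k (W0 ⊔ Subgroup.closure {w : ℚˣ | (w : ℚ) = (D : ℚ) * (n : ℚ) ^ r}) p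
        then (1 : ℝ) else 0) -
        (if p ∈ AL F C p1 ∧ QR F C W0 k D r p (n : ZMod p) then (1 : ℝ) else 0)| ≤
      ∑ p ∈ PP x, (if p < p1 then (1 : ℝ) else 0) := by
        refine Finset.sum_le_sum fun p hp => ?_
        have hpp := (mem_PP.1 hp).2
        by_cases hlt : p < p1
        · rw [if_pos hlt]
          split_ifs <;> norm_num
        · rw [if_neg hlt]
          have e : LC F C k (W0 ⊔ Subgroup.closure {w : ℚˣ | (w : ℚ) = (D : ℚ) * (n : ℚ) ^ r}) p ↔
              (p ∈ AL F C p1 ∧ QR F C W0 k D r p (n : ZMod p)) := by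
            rw [gp_eqR W0 D r hn, LC_iffR F C W0 k D r hk hr hpp (hp1 p hpp (by omega)) hn]
            constructor
            · intro h
              exact ⟨⟨by omega, hpp, h.1⟩, h⟩
            · exact fun h => h.2
          simp only [e, sub_self, abs_zero, le_refl]
    _ ≤ p1 := by
        rw [← Finset.sum_filter, Finset.sum_const, nsmul_eq_mul, mul_one]
        have : (PP x).filter (fun p => p < p1) ⊆ Finset.range p1 := by
          intro p hp
          rw [mem_filter] at hp
          rw [Finset.mem_range]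
          exact hp.2
        have h10 := card_le_card this
        rw [Finset.card_range] at h10
        exact_mod_cast h10

end

/-- **the joint Gaussian law** -/
theorem law (F : IntermediateField ℚ QA) [NumberField F] [IsGalois ℚ F] (W0 : Subgroup ℚˣ)
    (D : ℚˣ) (r : ℕ) (hr : r ≠ 0) {h : ℕ} (C : Fin h → Set Gal(F/ℚ)) (k : Fin h → ℕ)
    (hC : ∀ i, ∀ σ ∈ C i, ∀ τ : Gal(F/ℚ), τ * σ * τ⁻¹ ∈ C i)
    (hCd : ∀ i j, i ≠ j → Disjoint (C i) (C j)) (hk : ∀ i, k i ≠ 0)
    (hV : ∀ i, Tendsto (VL F (C i) W0 (k i) D r) atTop atTop) (N : ℕ → ℕ)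
    (hN : ∀ K : ℕ, ∀ᶠ x : ℕ in atTop, x ^ K ≤ N x)
    (f : BoundedContinuousFunction (EuclideanSpace ℝ (Fin h)) ℝ) :
    Tendsto (fun x => avg (N x) (fun m => f (WithLp.toLp 2 (fun i =>
        ((SL F (C i) W0 (k i) D r m x : ℝ) - EL F (C i) W0 (k i) D r x) /
          √(VL F (C i) W0 (k i) D r x))))) atTop
      (𝓝 (∫ z, f z ∂(multivariateGaussian 0 (1 : Matrix (Fin h) (Fin h) ℝ)))) := by
  classical
  -- the bad primes
  obtain ⟨D0, hD0, hT0⟩ := torsor F
  obtain ⟨D1, hD1, hU1⟩ := exists_unW (W := Subgroup.zpowers D) ⟨{D}, by simp [Subgroup.zpowers_eq_closure]⟩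
  set p1 : ℕ := D0 + D1 + 1 with hp1
  have hUD : ∀ p : ℕ, p.Prime → p1 ≤ p → Un p (D : ℚ) := by
    intro p hp hpp
    have : Fact p.Prime := ⟨hp⟩
    exact hU1 p (fun h => by
      have := Nat.le_of_dvd hD1 h
      omega) D (Subgroup.mem_zpowers D)
  have hTF : ∀ p : ℕ, p1 ≤ p → ∀ _ : Fact p.Prime, TorAt F p := by
    intro p hpp _
    exact hT0 p (fun h => by
      have := Nat.le_of_dvd hD0 h
      omega)
  set A : Fin h → Set ℕ := fun i => AL F (C i) p1 with hA
  set T : Fin h → (p : ℕ) → ZMod p → Prop := fun i p => QR F (C i) W0 (k i) D r p with hTdef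
  have hAd : ∀ i j, i ≠ j → Disjoint (A i) (A j) := by
    intro i j hij
    rw [Set.disjoint_left]
    rintro p ⟨h1, h2, h3⟩ ⟨_, _, h4⟩
    exact gf_disj F (hC i) (hC j) (hCd i j hij) h2 (hTF p h1) h3 h4
  have hVc : ∀ i x, |VL F (C i) W0 (k i) D r x - mV (A i) (T i) x| ≤ p1 := by
    intro i x
    unfold VL mV
    refine sum_close F (C i) p1 _ (fun p => ?_) (fun p => ?_) (fun p hp => ?_) x
    · have a := rho_nonneg p (T i p)
      have b := rho_le_one p (T i p)
      exact mul_nonneg a (by linarith)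
    · have a := rho_nonneg p (T i p)
      have b := rho_le_one p (T i p)
      change rho p (T i p) * (1 - rho p (T i p)) ≤ 1
      nlinarith
    · rw [rho_zero F (C i) W0 (k i) D r hp, zero_mul]
  have hEc : ∀ i x, |EL F (C i) W0 (k i) D r x - mE (A i) (T i) x| ≤ p1 := by
    intro i x
    unfold EL mE
    exact sum_close F (C i) p1 _ (fun p => rho_nonneg p (T i p)) (fun p => rho_le_one p (T i p))
      (fun p hp => rho_zero F (C i) W0 (k i) D r hp) x
  have hsq : ∀ i, Tendsto (fun x => √(VL F (C i) W0 (k i) D r x)) atTop atTop := fun i =>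
    Real.tendsto_sqrt_atTop.comp (hV i)
  refine joint_stable (fun i _ => setD (A i) (T i)) N hN
    (fun i x => 1 / √(VL F (C i) W0 (k i) D r x))
    (fun i => by
      simp only [one_div]
      exact tendsto_inv_atTop_zero.comp (hsq i))
    (1 : Matrix (Fin h) (Fin h) ℝ) (fun i j => ?_) _
    (fun i x => 2 * p1 / √(VL F (C i) W0 (k i) D r x))
    (fun i => tendsto_const_nhds.div_atTop (hsq i)) (fun x m i hm => ?_) f
  · by_cases hij : i = j
    · subst hij
      rw [Matrix.one_apply_eq]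
      have h1 : Tendsto (fun x => (mV (A i) (T i) x - VL F (C i) W0 (k i) D r x) /
          VL F (C i) W0 (k i) D r x) atTop (𝓝 0) := by
        have h2 : Tendsto (fun x => (p1 : ℝ) / VL F (C i) W0 (k i) D r x) atTop (𝓝 0) :=
          tendsto_const_nhds.div_atTop (hV i)
        refine squeeze_zero_norm' ?_ h2
        filter_upwards [(hV i).eventually_gt_atTop 0] with x hx
        rw [norm_div, Real.norm_eq_abs, Real.norm_eq_abs, abs_of_pos hx, abs_sub_comm]
        exact div_le_div_of_nonneg_right (hVc i x) hx.le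
      have h3 := h1.add_const 1
      rw [zero_add] at h3
      refine h3.congr' ?_
      filter_upwards [(hV i).eventually_gt_atTop 0] with x hx
      rw [sum_cv]
      have hs := Real.mul_self_sqrt hx.le
      rw [div_mul_div_comm, one_mul, hs, one_div, inv_mul_eq_div, sub_div, div_self hx.ne']
      ring
    · rw [Matrix.one_apply_ne hij]
      refine tendsto_const_nhds.congr fun x => ?_
      rw [Finset.sum_eq_zero, mul_zero]
      intro p _
      apply cv_zero
      by_contra hc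
      push Not at hc
      exact Set.disjoint_left.1 (hAd i j hij) hc.1 hc.2
  · rw [setD_S]
    have hS := SL_close F (C i) W0 (k i) D r hUD (hk i) hr (show m ≠ 0 by omega) x
    have hE := hEc i x
    have e : ((SL F (C i) W0 (k i) D r m x : ℝ) - EL F (C i) W0 (k i) D r x) /
          √(VL F (C i) W0 (k i) D r x) - 1 / √(VL F (C i) W0 (k i) D r x) *
          ((#((PP x).filter (fun p => p ∈ A i ∧ T i p (m : ZMod p))) : ℝ) -
            ∑ p ∈ (PP x).filter (fun p => p ∈ A i), rho p (T i p)) =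
        (((SL F (C i) W0 (k i) D r m x : ℝ) -
          (#((PP x).filter (fun p => p ∈ A i ∧ T i p (m : ZMod p))) : ℝ)) -
          (EL F (C i) W0 (k i) D r x - mE (A i) (T i) x)) / √(VL F (C i) W0 (k i) D r x) := by
      unfold mE
      ring
    rw [e, abs_div, abs_of_nonneg (Real.sqrt_nonneg _)]
    refine div_le_div_of_nonneg_right ?_ (Real.sqrt_nonneg _)
    refine (abs_sub _ _).trans ?_
    linarith

end Pool.Agent.K6.H83.LG
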