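import Pool.Agent.K6.H83.LG.Var

set_option autoImplicit false
set_option linter.unusedSectionVars false

/-! The variance and the mean of the number of primes in the set of Lenstra. -/

namespace Pool.Agent.K6.H83.LG

open NumberField Filter Topology Finset
open Pool.Agent.W401.Cheb (M M_congr)
open Pool.Agent.W171.LG (QA QR PW GF UnW Un rd rd_ne un_iff unW_iff exists_unW cE Lf dens M_eq
  aR gd Tp gT lim_lenR closeR tW Gen DR)
open Pool.Agent.H386R2.Artin (hL sumH)
open Pool.Agent.H981R3.LN (ql Sk mem_Sk Sk_dvd Sk_prime ql_ge)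
open Pool.Agent.TH893.JO (LL PD dens_QR)
open Pool.Agent.K6.H83.GL (rho rho_nonneg rho_le_one mV mE)
open Pool.Agent.N430.CLT (PP mem_PP avgP)

section
variable (F : IntermediateField ℚ QA) [NumberField F] [IsGalois ℚ F] (C : Set Gal(F/ℚ))
  (W0 : Subgroup ℚˣ) (k : ℕ) (D : ℚˣ) (r : ℕ)

lemma hL_nonneg (L n : ℕ) : 0 ≤ hL L n := Finset.sum_nonneg fun l _ => by positivity

lemma pc_top : Tendsto (fun x : ℕ => (Nat.primeCounting x : ℝ)) atTop atTop :=
  tendsto_natCast_atTop_atTop.comp Nat.tendsto_primeCounting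

/-- **the variance is of the order of `π(x)`** -/
theorem var_lower (hC : ∀ σ ∈ C, ∀ τ : Gal(F/ℚ), τ * σ * τ⁻¹ ∈ C) (hCne : C.Nonempty)
    (hW0 : W0.FG) (hk : k ≠ 0) (hrk : r ∣ k) (A : Set ℕ)
    (hA : ∀ p : ℕ, p.Prime → padicValRat p (D : ℚ) = 0 → p ∈ A) :
    ∃ c : ℝ, 0 < c ∧ ∀ᶠ x : ℕ in atTop,
      c * (Nat.primeCounting x : ℝ) ≤ mV A (QR F C W0 k D r) x := by
  classical
  have hr : r ≠ 0 := fun h => hk (by rw [h] at hrk; exact Nat.eq_zero_of_zero_dvd hrk)
  have hkpos : 0 < k := Nat.pos_of_ne_zero hk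
  obtain ⟨l, hl, hkl, hinf⟩ := exists_l F hW0 k
  have hlk : ¬ l ∣ k := fun h => by
    have := Nat.le_of_dvd hkpos h
    omega
  have hlr : ¬ l ∣ r := fun h => hlk (h.trans hrk)
  have hql : ql k l = l := by
    unfold ql
    rw [Nat.factorization_eq_zero_of_not_dvd hlk, zero_add, pow_one]
  -- the density of the primes where the condition at `l` is effective
  set dB : ℝ := (cE F C (Lf QA W0 l ⊔ Lf QA W0 l) : ℝ) /
    (Module.finrank ℚ (Pool.Agent.W171.LG.Kf F W0 W0 l l) : ℝ) with hdB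
  have hdens := Pool.Agent.W171.LG.dens F C hC W0 W0 l l hW0 hW0 hl.pos hl.pos
  have hdB0 : 0 < dB := by
    rw [hdB, sup_idem]
    have h1 := cE_pos F C hCne (Lf QA W0 l) hinf
    have hF : FiniteDimensional ℚ F := NumberField.to_finiteDimensional
    have h2 : FiniteDimensional ℚ (Pool.Agent.W171.LG.Kf F W0 W0 l l) :=
      Pool.Agent.W171.LG.Kf_fin F hW0 hW0 hl.pos hl.pos
    have h3 : 0 < Module.finrank ℚ (Pool.Agent.W171.LG.Kf F W0 W0 l l) := Module.finrank_pos
    positivity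
  obtain ⟨C5, hC5, hsum⟩ := sumH
  obtain ⟨L, hL1, hL2⟩ : ∃ L : ℕ, max 1 r ≤ L ∧ C5 / (L : ℝ) < dB / 4 := by
    have : Tendsto (fun L : ℕ => C5 / (L : ℝ)) atTop (𝓝 0) :=
      tendsto_const_nhds.div_atTop tendsto_natCast_atTop_atTop
    obtain ⟨L, h1, h2⟩ := ((this.eventually (gt_mem_nhds (by positivity : (0 : ℝ) < dB / 4))).and
      (eventually_ge_atTop (max 1 r))).exists
    exact ⟨L, h2, h1⟩
  have hL1' : 1 ≤ L := (le_max_left _ _).trans hL1
  have hLr : r ≤ L := (le_max_right _ _).trans hL1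
  obtain ⟨x₅, hx₅⟩ := hsum L hL1'
  -- the bad primes
  obtain ⟨D0, hD0, hU0⟩ := exists_unW (W := W0 ⊔ Subgroup.zpowers D)
    (hW0.sup ⟨{D}, by simp [Subgroup.zpowers_eq_closure]⟩)
  set B : ℕ → Prop := fun p => GF F C p ∧ PW W0 l p ∧ PW W0 l p with hB
  set c1 : ℝ := 1 / 2 * (1 / 2) ^ (L + 1) * (1 / (l : ℝ)) with hc1
  have hl0 : (0 : ℝ) < l := by exact_mod_cast hl.pos
  have hc1pos : 0 < c1 := by positivity
  refine ⟨c1 * (dB / 4), by positivity, ?_⟩
  have e1 : ∀ᶠ x : ℕ in atTop, dB * (3 / 4) < M (fun p => if B p then 1 else 0) x :=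
    hdens.eventually (lt_mem_nhds (by
      change dB * (3 / 4) < dB
      linarith))
  have e2 : ∀ᶠ x : ℕ in atTop, (D0 : ℝ) / (dB / 8) ≤ (Nat.primeCounting x : ℝ) :=
    pc_top.eventually_ge_atTop _
  filter_upwards [e1, e2, eventually_ge_atTop x₅, pc_top.eventually_gt_atTop 0] with x h1 h2 h3 h4
  rw [M_eq, lt_div_iff₀ h4] at h1
  have h5 := hx₅ x h3
  rw [div_le_iff₀ (by positivity)] at h2
  -- the bound
  have key : ∀ p ∈ PP x, c1 * ((if B p then (1 : ℝ) else 0) - (if p ∣ D0 then 1 else 0) - hL L (p - 1)) ≤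
      if p ∈ A then rho p (QR F C W0 k D r p) * (1 - rho p (QR F C W0 k D r p)) else 0 := by
    intro p hp
    have hpp := (mem_PP.1 hp).2
    have : Fact p.Prime := ⟨hpp⟩
    have hh := hL_nonneg L (p - 1)
    have r0 := rho_nonneg p (QR F C W0 k D r p)
    have r1 := rho_le_one p (QR F C W0 k D r p)
    have hnn : 0 ≤ (if p ∈ A then rho p (QR F C W0 k D r p) * (1 - rho p (QR F C W0 k D r p)) else 0) := by
      split_ifs
      · exact mul_nonneg r0 (by linarith)
      · exact le_rfl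
    by_cases hBp : B p
    swap
    · rw [if_neg hBp]
      refine le_trans ?_ hnn
      apply mul_nonpos_of_nonneg_of_nonpos hc1pos.le
      split_ifs <;> linarith
    by_cases hpD : p ∣ D0
    · rw [if_pos hBp, if_pos hpD]
      refine le_trans ?_ hnn
      apply mul_nonpos_of_nonneg_of_nonpos hc1pos.le
      linarith
    rw [if_pos hBp, if_neg hpD, sub_zero]
    have hUW := hU0 p hpD
    have hU1 : UnW W0 p := fun w hw => hUW w (Subgroup.mem_sup_left hw)
    have hUD : Un p (D : ℚ) := hUW D (Subgroup.mem_sup_right (Subgroup.mem_zpowers D))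
    have hpA : p ∈ A := hA p hpp ((un_iff D.ne_zero).1 hUD)
    rw [if_pos hpA]
    have hlL : l ∈ LL W0 k p := by
      unfold LL
      rw [mem_filter, hql]
      refine ⟨?_, hBp.2.1⟩
      have hp1 : p - 1 ≠ 0 := (Pool.Agent.H386R2.Artin.LC_pos (p := p)).ne'
      rw [mem_Sk hp1, hql]
      exact ⟨hl, hBp.2.1.1⟩
    have hup := dens_upper F C W0 k D r hk hrk hlL hlr
    have hlow := dens_lower F C W0 k D r hk hrk hr hLr ⟨hBp.1, hU1, hUD⟩
    rw [hql] at hup
    have hp2 : (1 : ℝ) / 2 ≤ 1 - 1 / (p : ℝ) := by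
      have : (2 : ℝ) ≤ p := by exact_mod_cast hpp.two_le
      have h6 : 1 / (p : ℝ) ≤ 1 / 2 := one_div_le_one_div_of_le (by norm_num) this
      linarith
    have hp3 : 1 - 1 / (p : ℝ) ≤ 1 := by
      have : (0 : ℝ) ≤ 1 / (p : ℝ) := by positivity
      linarith
    have hd0 := Pool.Agent.TH890.AS.dens_nonneg p (QR F C W0 k D r p)
    have hρ := rho_eq (QR F C W0 k D r p)
    have h7 : 1 / (l : ℝ) ≤ 1 - rho p (QR F C W0 k D r p) := by
      rw [hρ]
      have : (1 - 1 / (p : ℝ)) * Pool.Agent.TH890.AS.dens p (QR F C W0 k D r p) ≤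
        Pool.Agent.TH890.AS.dens p (QR F C W0 k D r p) := mul_le_of_le_one_left hd0 hp3
      linarith
    have h8 : 1 / 2 * Pool.Agent.TH890.AS.dens p (QR F C W0 k D r p) ≤ rho p (QR F C W0 k D r p) := by
      rw [hρ]
      exact mul_le_mul_of_nonneg_right hp2 hd0
    calc c1 * (1 - hL L (p - 1)) =
        (1 / 2 * ((1 / 2 : ℝ) ^ (L + 1) * (1 - hL L (p - 1)))) * (1 / (l : ℝ)) := by
          rw [hc1]
          ring
      _ ≤ rho p (QR F C W0 k D r p) * (1 / (l : ℝ)) := by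
          apply mul_le_mul_of_nonneg_right _ (by positivity)
          refine le_trans ?_ h8
          apply mul_le_mul_of_nonneg_left hlow (by norm_num)
      _ ≤ rho p (QR F C W0 k D r p) * (1 - rho p (QR F C W0 k D r p)) :=
          mul_le_mul_of_nonneg_left h7 r0
  have hsum2 := Finset.sum_le_sum key
  rw [← Finset.sum_filter] at hsum2
  refine le_trans ?_ hsum2
  rw [← Finset.mul_sum, Finset.sum_sub_distrib, Finset.sum_sub_distrib, mul_assoc]
  apply mul_le_mul_of_nonneg_left _ hc1pos.le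
  have h9 : ∑ p ∈ PP x, (if p ∣ D0 then (1 : ℝ) else 0) ≤ D0 := by
    rw [← Finset.sum_filter, Finset.sum_const, nsmul_eq_mul, mul_one]
    have : (PP x).filter (fun p => p ∣ D0) ⊆ Finset.Icc 1 D0 := by
      intro p hp
      rw [mem_filter] at hp
      rw [Finset.mem_Icc]
      exact ⟨(mem_PP.1 hp.1).2.one_le, Nat.le_of_dvd hD0 hp.2⟩
    have h10 := card_le_card this
    rw [Nat.card_Icc, Nat.add_sub_cancel] at h10
    exact_mod_cast h10
  have h11 : C5 / L * (Nat.primeCounting x : ℝ) ≤ dB / 4 * (Nat.primeCounting x : ℝ) :=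
    mul_le_mul_of_nonneg_right hL2.le h4.le
  have h12 : ∑ p ∈ PP x, hL L (p - 1) ≤ C5 / L * (Nat.primeCounting x : ℝ) := h5
  have h13 : dB * (3 / 4) * (Nat.primeCounting x : ℝ) <
    ∑ p ∈ PP x, (if B p then (1 : ℝ) else 0) := h1
  nlinarith

end

end Pool.Agent.K6.H83.LG
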