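import Pool.Agent.K6.H83.LG.Disj
import Pool.Agent.K6.H83.GL.Sets
import Pool.Agent.TH893.JO.Len

set_option autoImplicit false
set_option linter.unusedSectionVars false

/-! The variance of the number of primes in the set of Lenstra is of the order of `π(x)`. -/

namespace Pool.Agent.K6.H83.LG

open NumberField Filter Topology Finset
open Pool.Agent.W401.Cheb (M)
open Pool.Agent.W171.LG (QA QR PW GF UnW Un rd rd_ne un_iff unW_iff exists_unW cE Lf dens)
open Pool.Agent.H386R2.Artin (hL sumH)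
open Pool.Agent.H981R3.LN (ql Sk mem_Sk Sk_dvd Sk_prime ql_ge)
open Pool.Agent.TH893.JO (LL PD dens_QR)
open Pool.Agent.K6.H83.GL (rho rho_nonneg rho_le_one mV mE)
open Pool.Agent.N430.CLT (PP mem_PP avgP)

lemma rho_eq {p : ℕ} [hp : Fact p.Prime] (T : ZMod p → Prop) :
    rho p T = (1 - 1 / (p : ℝ)) * Pool.Agent.TH890.AS.dens p T := by
  classical
  rw [Pool.Agent.TH890.AS.dens_eq]
  have hp0 : (p : ℝ) ≠ 0 := by exact_mod_cast hp.out.ne_zero
  have hp1 : (((p - 1 : ℕ) : ℝ)) = (p : ℝ) - 1 := by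
    rw [Nat.cast_sub hp.out.one_le, Nat.cast_one]
  have hp2 : (p : ℝ) - 1 ≠ 0 := by
    have : (1 : ℝ) < p := by exact_mod_cast hp.out.one_lt
    linarith
  have hcard : #((range p).filter (fun m : ℕ => T (m : ZMod p))) =
      #((univ : Finset (ZMod p)).filter T) := by
    apply Finset.card_bij (fun (m : ℕ) _ => (m : ZMod p))
    · intro m hm
      rw [mem_filter] at hm ⊢
      exact ⟨mem_univ _, hm.2⟩
    · intro a ha b hb hab
      rw [mem_filter, mem_range] at ha hb
      rw [ZMod.natCast_eq_natCast_iff'] at hab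
      rwa [Nat.mod_eq_of_lt ha.1, Nat.mod_eq_of_lt hb.1] at hab
    · intro b hb
      rw [mem_filter] at hb
      refine ⟨b.val, ?_, ?_⟩
      · rw [mem_filter, mem_range]
        exact ⟨ZMod.val_lt b, by rw [ZMod.natCast_zmod_val]; exact hb.2⟩
      · rw [ZMod.natCast_zmod_val]
  unfold rho avgP
  rw [← Finset.sum_filter, Finset.sum_const, nsmul_eq_mul, mul_one, hcard, hp1]
  field_simp

section
variable {p : ℕ} [hp : Fact p.Prime]

lemma gcd_one {r k l : ℕ} (hl : l.Prime) (h : ¬ l ∣ r) : Nat.gcd r (ql k l) = 1 := by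
  unfold ql
  exact (Nat.Coprime.pow_right _ ((Nat.Prime.coprime_iff_not_dvd hl).2 h).symm)

lemma ql_pos' {k l : ℕ} (hl : l.Prime) : 0 < ql k l := by
  unfold ql
  exact pow_pos hl.pos _

lemma PD_nonneg (r : ℕ) (b : ZMod p) (q : ℕ) : 0 ≤ PD r b q := by
  unfold PD
  split_ifs
  · positivity
  · exact le_rfl

lemma PD_half {r k l : ℕ} (hl : l.Prime) (hk : k ≠ 0) (hrk : r ∣ k) (b : ZMod p) :
    PD r b (ql k l) ≤ 1 / 2 := by
  unfold PD
  split_ifs
  · obtain ⟨t, ht⟩ := Nat.gcd_dvd_right r (ql k l)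
    have hq := ql_pos' (k := k) hl
    have ht0 : t ≠ 0 := by
      rintro rfl
      rw [mul_zero] at ht
      omega
    have ht1 : t ≠ 1 := by
      rintro rfl
      rw [mul_one] at ht
      have h1 : ql k l ∣ r := ht ▸ Nat.gcd_dvd_left r (ql k l)
      exact Nat.pow_succ_factorization_not_dvd hk hl (h1.trans hrk)
    have ht2 : 2 ≤ t := by omega
    have hg : 0 < Nat.gcd r (ql k l) := Nat.gcd_pos_of_pos_right _ hq
    rw [div_le_div_iff₀ (by exact_mod_cast hq) (by norm_num)]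
    have h2 : Nat.gcd r (ql k l) * 2 ≤ ql k l := by
      calc Nat.gcd r (ql k l) * 2 ≤ Nat.gcd r (ql k l) * t := Nat.mul_le_mul_left _ ht2
        _ = ql k l := ht.symm
    have h3 : ((Nat.gcd r (ql k l) : ℕ) : ℝ) * 2 ≤ (ql k l : ℝ) := by exact_mod_cast h2
    linarith
  · norm_num

lemma PD_le {r k l : ℕ} (hl : l.Prime) (hlr : ¬ l ∣ r) (b : ZMod p) :
    PD r b (ql k l) ≤ 1 / (l : ℝ) := by
  unfold PD
  rw [gcd_one hl hlr]
  have h0 : (0 : ℝ) < l := by exact_mod_cast hl.pos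
  split_ifs
  · rw [Nat.cast_one]
    apply one_div_le_one_div_of_le h0
    exact_mod_cast ql_ge hl.one_le
  · positivity

lemma PD_eq {r k l : ℕ} (hl : l.Prime) (hlr : ¬ l ∣ r) (b : ZMod p) :
    PD r b (ql k l) = 1 / (ql k l : ℝ) := by
  unfold PD
  rw [gcd_one hl hlr, if_pos ⟨b, pow_one b⟩, Nat.cast_one]

lemma prod_lower {ι : Type*} (s : Finset ι) (a : ι → ℝ) (h0 : ∀ i ∈ s, 0 ≤ a i)
    (h1 : ∀ i ∈ s, a i ≤ 1) : 1 - ∑ i ∈ s, a i ≤ ∏ i ∈ s, (1 - a i) ∧ 0 ≤ ∏ i ∈ s, (1 - a i) ∧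
      ∏ i ∈ s, (1 - a i) ≤ 1 := by
  classical
  induction s using Finset.induction_on with
  | empty => simp
  | insert i s hi ih =>
    obtain ⟨i1, i2, i3⟩ := ih (fun j hj => h0 j (Finset.mem_insert_of_mem hj))
      (fun j hj => h1 j (Finset.mem_insert_of_mem hj))
    have g0 := h0 i (Finset.mem_insert_self i s)
    have g1 := h1 i (Finset.mem_insert_self i s)
    rw [Finset.prod_insert hi, Finset.sum_insert hi]
    refine ⟨?_, mul_nonneg (by linarith) i2, ?_⟩
    · nlinarith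
    · nlinarith

section
variable (F : IntermediateField ℚ QA) [NumberField F] [IsGalois ℚ F] (C : Set Gal(F/ℚ))
  (W0 : Subgroup ℚˣ) (k : ℕ) (D : ℚˣ) (r : ℕ)

lemma LL_prime {l : ℕ} (hl : l ∈ LL W0 k p) : l.Prime := by
  classical
  unfold LL at hl
  rw [mem_filter] at hl
  exact Sk_prime hl.1

lemma dens_upper (hk : k ≠ 0) (hrk : r ∣ k) {l : ℕ} (hl : l ∈ LL W0 k p) (hlr : ¬ l ∣ r) :
    Pool.Agent.TH890.AS.dens p (QR F C W0 k D r p) ≤ 1 - 1 / (ql k l : ℝ) := by
  classical
  have hlp := LL_prime W0 k hl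
  rw [dens_QR]
  split_ifs with h
  · rw [← Finset.mul_prod_erase _ _ hl, PD_eq hlp hlr]
    have h1 := prod_lower ((LL W0 k p).erase l) (fun l => PD r (rd p (D : ℚ)) (ql k l))
      (fun i _ => PD_nonneg _ _ _) (fun i hi => by
        have := PD_half (LL_prime W0 k (Finset.mem_of_mem_erase hi)) hk hrk (rd p (D : ℚ))
        linarith)
    have h2 : (0 : ℝ) ≤ 1 - 1 / (ql k l : ℝ) := by
      rw [sub_nonneg, div_le_one (by exact_mod_cast ql_pos' hlp)]
      exact_mod_cast ql_pos' hlp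
    exact mul_le_of_le_one_right h2 h1.2.2
  · rw [sub_nonneg, div_le_one (by exact_mod_cast ql_pos' hlp)]
    exact_mod_cast ql_pos' hlp

lemma dens_lower (hk : k ≠ 0) (hrk : r ∣ k) (hr : r ≠ 0) {L : ℕ} (hL' : r ≤ L)
    (h : GF F C p ∧ UnW W0 p ∧ Un p (D : ℚ)) :
    (1 / 2 : ℝ) ^ (L + 1) * (1 - hL L (p - 1)) ≤
      Pool.Agent.TH890.AS.dens p (QR F C W0 k D r p) := by
  classical
  rw [dens_QR, if_pos h, ← Finset.prod_filter_mul_prod_filter_not (LL W0 k p) (fun l => l ≤ L)]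
  set b := rd p (D : ℚ)
  set S1 := (LL W0 k p).filter (fun l => l ≤ L) with hS1
  set S2 := (LL W0 k p).filter (fun l => ¬ l ≤ L) with hS2
  have hp1 : ∀ l ∈ S1, l.Prime := fun l hl => LL_prime W0 k (mem_filter.1 hl).1
  have hp2 : ∀ l ∈ S2, l.Prime := fun l hl => LL_prime W0 k (mem_filter.1 hl).1
  have h1 : (1 / 2 : ℝ) ^ (L + 1) ≤ ∏ l ∈ S1, (1 - PD r b (ql k l)) := by
    calc (1 / 2 : ℝ) ^ (L + 1) ≤ (1 / 2 : ℝ) ^ #S1 := by
          apply pow_le_pow_of_le_one (by norm_num) (by norm_num)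
          have : S1 ⊆ range (L + 1) := by
            intro l hl
            rw [mem_range]
            have := (mem_filter.1 hl).2
            omega
          have h3 := card_le_card this
          rwa [card_range] at h3
      _ = ∏ _l ∈ S1, (1 / 2 : ℝ) := by rw [Finset.prod_const]
      _ ≤ _ := by
          refine Finset.prod_le_prod (fun _ _ => by norm_num) fun l hl => ?_
          have := PD_half (hp1 l hl) hk hrk b
          linarith
  have h2 := prod_lower S2 (fun l => PD r b (ql k l)) (fun i _ => PD_nonneg _ _ _)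
    (fun i hi => by
        have := PD_half (hp2 i hi) hk hrk b
        linarith)
  have h3 : ∑ l ∈ S2, PD r b (ql k l) ≤ hL L (p - 1) := by
    unfold hL
    calc ∑ l ∈ S2, PD r b (ql k l) ≤ ∑ l ∈ S2, 1 / (l : ℝ) := by
          refine Finset.sum_le_sum fun l hl => PD_le (hp2 l hl) ?_ b
          intro hlr
          have h4 := Nat.le_of_dvd (Nat.pos_of_ne_zero hr) hlr
          have h5 := (mem_filter.1 hl).2
          omega
      _ ≤ _ := by
          refine Finset.sum_le_sum_of_subset_of_nonneg ?_ fun _ _ _ => by positivity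
          intro l hl
          have h6 := mem_filter.1 hl
          have h7 := h6.1
          unfold LL at h7
          rw [mem_filter] at h7
          rw [mem_filter]
          have h8 := h7.1
          unfold Sk at h8
          rw [mem_filter] at h8
          exact ⟨h8.1, by omega⟩
  have h4 : 0 ≤ ∏ l ∈ S1, (1 - PD r b (ql k l)) := le_trans (by positivity) h1
  rcases le_or_gt 0 (1 - hL L (p - 1)) with h5 | h5
  · exact mul_le_mul h1 (by linarith [h2.1]) h5 h4
  · have : (1 / 2 : ℝ) ^ (L + 1) * (1 - hL L (p - 1)) ≤ 0 :=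
      mul_nonpos_of_nonneg_of_nonpos (by positivity) h5.le
    exact this.trans (mul_nonneg h4 h2.2.1)

end

end

end Pool.Agent.K6.H83.LG
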